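import Pool.Agent.H92.EQ.TF2

/-!
Row L3 of the board MP_75a732_an: examples of potentials.
-/

set_option autoImplicit false

namespace Pool.Agent.H94.EQ

open scoped BigOperators ComplexConjugate ContDiff ComplexOrder
open MeasureTheory Pool.Agent.H92.EQ

section

variable {ι : Type} [Fintype ι] [DecidableEq ι]

/-- linearity of the first derivatives -/
theorem wdb_lin (b : ι) (f g : (ι → ℂ) → ℂ) (α β : ℂ) (z : ι → ℂ)
    (hf : DifferentiableAt ℝ f z) (hg : DifferentiableAt ℝ g z) :
    wdb b (fun w => α * f w + β * g w) z = α * wdb b f z + β * wdb b g z ∧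
    wd b (fun w => α * f w + β * g w) z = α * wd b f z + β * wd b g z := by
  have h1 : fderiv ℝ (fun w => α * f w + β * g w) z = α • fderiv ℝ f z + β • fderiv ℝ g z := by
    have e1 := (hf.hasFDerivAt.const_mul α).add (hg.hasFDerivAt.const_mul β)
    exact e1.fderiv
  unfold wdb wd
  rw [h1]
  simp only [_root_.add_apply, _root_.smul_apply, smul_eq_mul]
  constructor <;> ring

theorem diff_wdb (b : ι) (f : (ι → ℂ) → ℂ) (z : ι → ℂ) (hf : ContDiffAt ℝ 2 f z) :
    DifferentiableAt ℝ (fun w => wdb b f w) z := by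
  have h1 : ContDiffAt ℝ 1 (fderiv ℝ f) z := hf.fderiv_right (m := 1) (by norm_num)
  have h2 : DifferentiableAt ℝ (fderiv ℝ f) z := h1.differentiableAt (by norm_num)
  unfold wdb
  have h3 : ∀ v : ι → ℂ, DifferentiableAt ℝ (fun w => fderiv ℝ f w v) z := fun v =>
    h2.clm_apply (differentiableAt_const v)
  have h4 := ((h3 (Pi.single b 1)).add
    ((h3 (Pi.single b Complex.I)).const_mul Complex.I)).mul_const ((2 : ℂ)⁻¹)
  simp only [div_eq_mul_inv]
  exact h4

/-- linearity of the Hessian -/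
theorem hess_lin (f g : (ι → ℂ) → ℂ) (α β : ℂ) (z : ι → ℂ)
    (hf : ContDiffAt ℝ 2 f z) (hg : ContDiffAt ℝ 2 g z) :
    hess (fun w => α * f w + β * g w) z = α • hess f z + β • hess g z := by
  funext a b
  have hev : (fun w => wdb b (fun w => α * f w + β * g w) w) =ᶠ[nhds z]
      fun w => α * wdb b f w + β * wdb b g w := by
    have e1 := (hf.eventually (by norm_num)).and (hg.eventually (by norm_num))
    filter_upwards [e1] with w hw
    exact (wdb_lin b f g α β w (hw.1.differentiableAt (by norm_num))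
      (hw.2.differentiableAt (by norm_num))).1
  have h1 : wd a (fun w => wdb b (fun w => α * f w + β * g w) w) z =
      wd a (fun w => α * wdb b f w + β * wdb b g w) z := by
    unfold wd
    rw [hev.fderiv_eq]
  change wd a (fun w => wdb b (fun w => α * f w + β * g w) w) z = _
  rw [h1, (wdb_lin a _ _ α β z (diff_wdb b f z hf) (diff_wdb b g z hg)).2]
  rfl

omit [DecidableEq ι] in
theorem cdAt_of_on {u : (ι → ℂ) → ℝ} (hu : ContDiffOn ℝ ∞ u {0}ᶜ) {z : ι → ℂ} (hz : z ≠ 0) :
    ContDiffAt ℝ 2 (fun w => (u w : ℂ)) z := by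
  have h1 : ContDiffAt ℝ ∞ u z :=
    hu.contDiffAt (isOpen_compl_singleton.mem_nhds hz)
  have h2 : ContDiffAt ℝ 2 u z := h1.of_le (by
    have h3 : ((2 : ℕ∞) : WithTop ℕ∞) ≤ ((⊤ : ℕ∞) : WithTop ℕ∞) := WithTop.coe_le_coe.2 le_top
    exact h3)
  exact Complex.ofRealCLM.contDiff.contDiffAt.comp z h2

theorem hessR_lin (u v : (ι → ℂ) → ℝ) (α β : ℝ) (z : ι → ℂ) (hz : z ≠ 0)
    (hu : ContDiffOn ℝ ∞ u {0}ᶜ) (hv : ContDiffOn ℝ ∞ v {0}ᶜ) :
    hessR (fun w => α * u w + β * v w) z = (α : ℂ) • hessR u z + (β : ℂ) • hessR v z := by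
  unfold hessR
  rw [← hess_lin _ _ _ _ z (cdAt_of_on hu hz) (cdAt_of_on hv hz)]
  congr 1
  funext w
  push_cast
  rfl

omit [Fintype ι] [DecidableEq ι] in
theorem psd_real_smul {M : Matrix ι ι ℂ} (hM : M.PosSemidef) (α : ℝ) (hα : 0 ≤ α) :
    ((α : ℂ) • M).PosSemidef := by
  apply hM.smul
  exact_mod_cast hα

end

theorem nsq_smul {N : ℕ} (l : ℂ) (z : Fin N → ℂ) : nsq (l • z) = ‖l‖ ^ 2 * nsq z := by
  unfold nsq
  rw [Finset.mul_sum]
  refine Finset.sum_congr rfl fun i _ => ?_
  rw [Pi.smul_apply, smul_eq_mul, norm_mul, mul_pow]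

theorem nsq_pos {N : ℕ} {z : Fin N → ℂ} (hz : z ≠ 0) : 0 < nsq z := by
  obtain ⟨i, hi⟩ : ∃ i, z i ≠ 0 := by
    by_contra hcon
    push Not at hcon
    exact hz (funext hcon)
  unfold nsq
  exact Finset.sum_pos' (fun i _ => by positivity) ⟨i, Finset.mem_univ i, by positivity⟩

theorem ell_smul {N : ℕ} (l : ℂ) (z : Fin N → ℂ) (hl : l ≠ 0) (hz : z ≠ 0) :
    ell (l • z) = ell z + Real.log ‖l‖ := by
  unfold ell
  have h1 : (0 : ℝ) < ‖l‖ := norm_pos_iff.2 hl
  rw [nsq_smul, Real.log_mul (by positivity) (nsq_pos hz).ne', Real.log_pow]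
  push_cast
  ring

theorem l3 (hW2 : T_W2) (hW4 : T_W4) (hW9 : T_W9) (hD11 : T_D11) : T_L3 := by
  intro N
  refine ⟨⟨(hW9 (Fin N)).1, fun l z hl hz => ell_smul l z hl hz,
    fun z hz => ((hW9 (Fin N)).2 z hz).2.2.2.1⟩, ?_, ?_⟩
  · intro u v s hs0 hs1 hu hv
    refine ⟨(contDiffOn_const.mul hu.smooth).add (contDiffOn_const.mul hv.smooth), ?_, ?_⟩
    · intro l z hl hz
      rw [hu.loghom l z hl hz, hv.loghom l z hl hz]
      ring
    · intro z hz
      rw [hessR_lin u v (1 - s) s z hz hu.smooth hv.smooth]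
      exact (psd_real_smul (hu.psh z hz) (1 - s) (by linarith)).add
        (psd_real_smul (hv.psh z hz) s hs0)
  · intro D G u hD hG hu
    have hmaps : ∀ z : Fin N → ℂ, z ≠ 0 → ev G z ≠ 0 := fun z hz h => hz (hG.nd z h)
    have hevs : ContDiff ℝ ∞ (fun z : Fin N → ℂ => ev G z) := by
      rw [contDiff_pi]
      intro i
      by_cases hN : Nonempty (Fin N)
      · obtain ⟨a⟩ := hN
        exact (hW2 (Fin N) a (G i) 0).2.2
      · exact absurd ⟨i⟩ hN
    have hcomp : ContDiffOn ℝ ∞ (fun z : Fin N → ℂ => u (ev G z)) {0}ᶜ :=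
      hu.smooth.comp hevs.contDiffOn fun z hz => hmaps z hz
    have hD0 : (D : ℝ) ≠ 0 := by
      have : 0 < D := hD
      positivity
    refine ⟨contDiffOn_const.mul hcomp, ?_, ?_⟩
    · intro l z hl hz
      have h1 := (hD11 N D D G G hD hD hG hG).2.1 l z
      rw [h1, hu.loghom (l ^ D) (ev G z) (pow_ne_zero D hl) (hmaps z hz), norm_pow, Real.log_pow]
      field_simp
    · intro z hz
      have h1 : hessR (fun w => (1 / (D : ℝ)) * u (ev G w)) z =
          (((1 / (D : ℝ) : ℝ)) : ℂ) • hessR (fun w => u (ev G w)) z := by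
        have h2 := hessR_lin (fun w => u (ev G w)) (fun w => u (ev G w)) (1 / (D : ℝ)) 0 z hz
          hcomp hcomp
        have h3 : (fun w : Fin N → ℂ => (1 / (D : ℝ)) * u (ev G w) + 0 * u (ev G w)) =
            fun w => (1 / (D : ℝ)) * u (ev G w) := by
          funext w
          ring
        rw [h3] at h2
        rw [h2]
        simp
      rw [h1]
      refine psd_real_smul ?_ _ (by positivity)
      have h4 : hessR (fun w => u (ev G w)) z =
          ((jac G z).map conj).conjTranspose * hessR u (ev G z) * (jac G z).map conj := by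
        funext a b
        have h5 := hW4 (Fin N) (Fin N) G (fun y => (u y : ℂ)) z
          (cdAt_of_on hu.smooth (hmaps z hz)) a b
        change hess (fun w => (u (ev G w) : ℂ)) z a b = _
        rw [h5, Matrix.mul_apply]
        simp only [Matrix.mul_apply, Matrix.conjTranspose_apply, Matrix.map_apply, Finset.sum_mul]
        rw [Finset.sum_comm]
        refine Finset.sum_congr rfl fun i _ => Finset.sum_congr rfl fun j _ => ?_
        have h6 : star (conj (jac G z j a)) = jac G z j a := by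
          rw [← starRingEnd_apply, Complex.conj_conj]
        rw [h6]
        change _ = jac G z j a * hess (fun y => (u y : ℂ)) (ev G z) j i * conj (jac G z i b)
        ring
      rw [h4]
      exact (hu.psh (ev G z) (hmaps z hz)).conjTranspose_mul_mul_same _

end Pool.Agent.H94.EQ
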