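import Pool.Agent.H92.EQ.TF2

/-!
Row D10 of the board MP_75a732_an: top degree forms.
-/

set_option autoImplicit false

namespace Pool.Agent.H94.EQ

open scoped BigOperators ComplexConjugate ContDiff ComplexOrder
open MeasureTheory Pool.Agent.H92.EQ

theorem d10 (hA6 : T_A6) : T_D10 := by
  intro ι _ _ p m G S H z
  have h := hA6 ι p m (S (ev G z)) H (jac G z) (jac G z)
  have h2 : (jac G z).det * conj (jac G z).det = ((‖(jac G z).det‖ ^ 2 : ℝ) : ℂ) := by
    rw [Complex.mul_conj, Complex.normSq_eq_norm_sq]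
  rw [← h2]
  exact h

end Pool.Agent.H94.EQ
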